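import Pool.Agent.N639.FG.Fin1

/-!
# All words of all lengths in the digits of almost all roots and multiples

For almost all numbers of three families (integral combinations of real numbers one of which is
algebraic and irrational; `ω m ^ c + y` for `m` in a short interval, for instance `√m`; elements
`f(m ^ (1 / d)) / c` of the fields generated by `m ^ (1 / d)`) all words of all lengths occur in all
windows of digits up to the place `A log M` (in the third family up to `(log M) ^ (1 + δ)`) as often as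
expected, with an error which is nearly the square root of the expectation. The exceptional set is
smaller than every power of `1 / log M`.

Proof. All tests with a bounded number of digits have small errors (exponential sums: starting files
of helper933, and files of helper586 for the third family). The law follows from moments of high order,
which are sums of such tests over the words of length `O(log log M)`.
Authors: helper639, with parts by helper199 and helper407.
-/

set_option autoImplicit false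

namespace Pool.Agent.Results.MP_175f55_nt.AllWordsOfAllLengths

open Finset Real Polynomial

/-- the word of the `w` digits in base `b` of `y` which follow the first `n` digits after the point,
read as an integer between `0` and `b ^ w - 1` -/
noncomputable def word (b w n : ℕ) (y : ℝ) : ℕ := ⌊(b : ℝ) ^ w * Int.fract ((b : ℝ) ^ n * y)⌋₊

/-- the number of the places `s ≤ n < s + N` at which the word `c` of length `w` stands -/
noncomputable def number (b w s N c : ℕ) (y : ℝ) : ℕ :=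
  ((Ico s (s + N)).filter fun n => word b w n y = c).card

open Classical in
/-- all members of the finite family `X` but at most `ε |X|` have the property `Q` -/
def Most (ε : ℝ) (X : Multiset ℝ) (Q : ℝ → Prop) : Prop :=
  ((X.filter fun y => ¬ Q y).card : ℝ) ≤ ε * X.card

/-- all words of all lengths in all windows up to the place `L M`, for almost all members of the
families in `F M` -/
def AllWords (b : ℕ) (L : ℕ → ℝ) (F : ℕ → Set (Multiset ℝ)) : Prop :=
  ∀ η : ℝ, 0 < η → ∀ K : ℕ, ∃ M0 : ℕ, ∀ M : ℕ, M0 ≤ M → ∀ X ∈ F M,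
    Most (((L M) ^ K)⁻¹) X fun y => ∀ w s N c : ℕ, ((s + N : ℕ) : ℝ) ≤ L M → c < b ^ w →
      |(number b w s N c y : ℝ) - N / (b : ℝ) ^ w| ≤ (L M) ^ η * (1 + √(N / (b : ℝ) ^ w))

/-- the numbers `∑ m_j ω_j + y`, where `1 ≤ m_j ≤ M` -/
def Combinations {d : ℕ} (ω : Fin d → ℝ) (M : ℕ) : Set (Multiset ℝ) :=
  {X | ∃ y : ℝ, X = (Fintype.piFinset fun _ : Fin d => Icc 1 M).val.map
    (fun m : Fin d → ℕ => ∑ j, (m j : ℝ) * ω j + y)}

/-- the numbers `ω m ^ c + y`, where `N < m ≤ N + M`, and `N ^ (1 / 2 + ε) ≤ M`,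
`N ^ (1 - c + ε) ≤ M`, `1 ≤ |ω| ≤ M ^ W` -/
def Powers (c ε W : ℝ) (M : ℕ) : Set (Multiset ℝ) :=
  {X | ∃ (N : ℕ) (ω y : ℝ), (N : ℝ) ^ (1 / 2 + ε) ≤ M ∧ (N : ℝ) ^ (1 - c + ε) ≤ M ∧
    1 ≤ |ω| ∧ |ω| ≤ (M : ℝ) ^ W ∧
    X = (Ioc N (N + M)).val.map (fun m : ℕ => ω * (m : ℝ) ^ c + y)}

/-- the numbers `f(m ^ (1 / d)) / c`, where `M < m ≤ 2 M`; here `f` is an integral polynomial with
`1 ≤ deg f < d`, and `c` and the absolute values of the coefficients of `f` are at most
`exp ((log M) ^ (4 / 5))` -/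
def Roots (d M : ℕ) : Set (Multiset ℝ) :=
  {X | ∃ (f : ℤ[X]) (c : ℕ), 1 ≤ f.natDegree ∧ f.natDegree < d ∧
    (∀ i, |(f.coeff i : ℝ)| ≤ Real.exp ((log M) ^ (4 / 5 : ℝ))) ∧ 1 ≤ c ∧
    (c : ℝ) ≤ Real.exp ((log M) ^ (4 / 5 : ℝ)) ∧
    X = (Ioc M (2 * M)).val.map (fun m : ℕ => aeval ((m : ℝ) ^ (1 / (d : ℝ))) f / (c : ℝ))}

open Pool.Agent.N639.FG Pool.Agent.Y933.KD MeasureTheory Filter Topology in
lemma law_of {b : ℕ} (hb : 2 ≤ b) {L : ℕ → ℝ} {S : ℕ → Set (Measure ℝ)}
    {F : ℕ → Set (Multiset ℝ)} (hT : TG b (fun M => 2 * L M) S)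
    (hF : ∀ M : ℕ, ∀ X ∈ F M, ∃ (ι : Type) (s : Finset ι) (x : ι → ℝ), X = s.val.map x ∧
      unif s x ∈ S M) : AllWords b L F := by
  intro η hη K
  obtain ⟨M0, hM0⟩ := eventually_atTop.1 (cg1w hb hT hη K)
  refine ⟨M0, fun M hM X hX => ?_⟩
  obtain ⟨ι, s, x, rfl, hP⟩ := hF M X hX
  obtain ⟨U, hU, hU1, hU2⟩ := hM0 M hM _ hP
  refine most_of hU hU1 (fun y hy w s N c hN hc => ?_)
  have h1 := hU2 y hy w s N c hN hc
  have h2 : (number b w s N c y : ℝ) = ∑ n ∈ Ico s (s + N), cnd b w n c y := by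
    unfold number cnd
    rw [card_filter]
    push_cast
    rfl
  rw [h2]
  exact h1

/-- **All words of all lengths** in the digits of almost all members of the three families. -/
theorem result :
    (∀ (d : ℕ) (ω : Fin d → ℝ) (j : Fin d), IsAlgebraic ℚ (ω j) → Irrational (ω j) →
      ∀ A : ℝ, 0 < A → ∀ b : ℕ, 2 ≤ b → AllWords b (fun M => A * log M) (Combinations ω)) ∧
    (∀ c ε W : ℝ, 0 < c → (∀ m : ℕ, c ≠ m) → 0 < ε → ∀ A : ℝ, 0 < A → ∀ b : ℕ, 2 ≤ b →
      AllWords b (fun M => A * log M) (Powers c ε W)) ∧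
    (∀ d : ℕ, 2 ≤ d → ∃ δ : ℝ, 0 < δ ∧ ∀ b : ℕ, 2 ≤ b →
      AllWords b (fun M => (log M) ^ (1 + δ)) (Roots d)) := by
  refine ⟨?_, ?_, ?_⟩
  · intro d ω j halg hirr A hA b hb
    refine law_of hb (Pool.Agent.N639.FG.tg_SM ω j halg hirr hA hb) ?_
    rintro M X ⟨y, rfl⟩
    exact ⟨_, _, _, rfl, ⟨y, rfl⟩⟩
  · intro c ε W hc0 hc hε A hA b hb
    refine law_of hb (Pool.Agent.N639.FG.tg_SR hc0 hc hε W hA hb) ?_
    rintro M X ⟨N, ω, y, h1, h2, h3, h4, rfl⟩
    exact ⟨_, _, _, rfl, ⟨N, ω, y, h1, h2, h3, h4, rfl⟩⟩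
  · intro d hd
    obtain ⟨δ, hδ, h⟩ := Pool.Agent.N639.FG.tg_SD d hd
    refine ⟨δ, hδ, fun b hb => law_of hb (h b hb) ?_⟩
    rintro M X ⟨f, c, h1, h2, h3, h4, h5, rfl⟩
    exact ⟨_, _, _, rfl, ⟨f, c, h1, h2, h3, h4, h5, rfl⟩⟩

end Pool.Agent.Results.MP_175f55_nt.AllWordsOfAllLengths
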