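import Pool.Agent.N639.FG.Fin4

/-!
# The complexity law for the digits of almost all roots and multiples

Let `p(w)` be the number of different words of length `w` at `N` consecutive places of the base `b`
expansion of a number. For random digits `p(w)` is about `b ^ w (1 - exp (-N / b ^ w))`. We show that
this holds for all `w` at the same time, up to a factor `1 + ε`, for almost all numbers of three
families (integral combinations of real numbers one of which is algebraic and irrational; `ω m ^ c + y`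
for `m` in a short interval, for instance `√m`; elements `f(m ^ (1 / d)) / c` of the fields generated by
`m ^ (1 / d)`) and all windows of `N → ∞` places up to the place `A log M` (in the third family up to
`(log M) ^ (1 + δ)`).

Proof. All tests with a bounded number of digits have small errors (exponential sums: starting files
of helper933, and files of helper586 for the third family). They give the binomial moments of the number
of occurrences of words without large overlaps, hence a Poisson law for one word and for two words, and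
so mean and variance of the number of missing words.
Authors: helper639, with parts by helper199, helper711, helper79 and helper407.
-/

set_option autoImplicit false

namespace Pool.Agent.Results.MP_175f55_nt.ComplexityLaw

open Finset Real Polynomial

/-- the word of the `w` digits in base `b` of `y` which follow the first `n` digits after the point,
read as an integer between `0` and `b ^ w - 1` -/
noncomputable def word (b w n : ℕ) (y : ℝ) : ℕ := ⌊(b : ℝ) ^ w * Int.fract ((b : ℝ) ^ n * y)⌋₊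

/-- the number of different words of length `w` at the places `s ≤ n < s + N` -/
noncomputable def different (b w s N : ℕ) (y : ℝ) : ℕ := ((Ico s (s + N)).image (word b w · y)).card

open Classical in
/-- all members of the finite family `X` but at most `ε |X|` have the property `Q` -/
def Most (ε : ℝ) (X : Multiset ℝ) (Q : ℝ → Prop) : Prop :=
  ((X.filter fun y => ¬ Q y).card : ℝ) ≤ ε * X.card

/-- for almost all members of the families in `F M`, the numbers of different words of all lengths `w`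
in a window of `N ≥ N0` places are `(1 + o(1)) b ^ w (1 - exp (-N / b ^ w))` -/
def Complexity (b : ℕ) (L : ℕ → ℝ) (F : ℕ → Set (Multiset ℝ)) : Prop :=
  ∀ ε : ℝ, 0 < ε → ∃ N0 M0 : ℕ, ∀ M : ℕ, M0 ≤ M → ∀ X ∈ F M, ∀ s N : ℕ, N0 ≤ N →
    ((s + N : ℕ) : ℝ) ≤ L M → Most ε X fun y => ∀ w : ℕ,
      |(different b w s N y : ℝ) - (b : ℝ) ^ w * (1 - exp (-(N / (b : ℝ) ^ w)))| ≤
        ε * ((b : ℝ) ^ w * (1 - exp (-(N / (b : ℝ) ^ w))))

/-- the numbers `∑ m_j ω_j + y`, where `1 ≤ m_j ≤ M` -/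
def Combinations {d : ℕ} (ω : Fin d → ℝ) (M : ℕ) : Set (Multiset ℝ) :=
  {X | ∃ y : ℝ, X = (Fintype.piFinset fun _ : Fin d => Icc 1 M).val.map
    (fun m : Fin d → ℕ => ∑ j, (m j : ℝ) * ω j + y)}

/-- the numbers `ω m ^ c + y`, where `N < m ≤ N + M`, and `N ^ (1 / 2 + ε) ≤ M`,
`N ^ (1 - c + ε) ≤ M`, `1 ≤ |ω| ≤ M ^ W` -/
def Powers (c ε W : ℝ) (M : ℕ) : Set (Multiset ℝ) :=
  {X | ∃ (N : ℕ) (ω y : ℝ), (N : ℝ) ^ (1 / 2 + ε) ≤ M ∧ (N : ℝ) ^ (1 - c + ε) ≤ M ∧
    1 ≤ |ω| ∧ |ω| ≤ (M : ℝ) ^ W ∧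
    X = (Ioc N (N + M)).val.map (fun m : ℕ => ω * (m : ℝ) ^ c + y)}

/-- the numbers `f(m ^ (1 / d)) / c`, where `M < m ≤ 2 M`; here `f` is an integral polynomial with
`1 ≤ deg f < d`, and `c` and the absolute values of the coefficients of `f` are at most
`exp ((log M) ^ (4 / 5))` -/
def Roots (d M : ℕ) : Set (Multiset ℝ) :=
  {X | ∃ (f : ℤ[X]) (c : ℕ), 1 ≤ f.natDegree ∧ f.natDegree < d ∧
    (∀ i, |(f.coeff i : ℝ)| ≤ Real.exp ((log M) ^ (4 / 5 : ℝ))) ∧ 1 ≤ c ∧
    (c : ℝ) ≤ Real.exp ((log M) ^ (4 / 5 : ℝ)) ∧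
    X = (Ioc M (2 * M)).val.map (fun m : ℕ => aeval ((m : ℝ) ^ (1 / (d : ℝ))) f / (c : ℝ))}

open Pool.Agent.N639.FG Pool.Agent.Y933.KD MeasureTheory Filter Topology in
lemma law_of {b : ℕ} (hb : 2 ≤ b) {L : ℕ → ℝ} {S : ℕ → Set (Measure ℝ)}
    {F : ℕ → Set (Multiset ℝ)} (hT : TG b (fun M => 2 * L M) S)
    (hF : ∀ M : ℕ, ∀ X ∈ F M, ∃ (ι : Type) (s : Finset ι) (x : ι → ℝ), X = s.val.map x ∧
      unif s x ∈ S M) : Complexity b L F := by
  intro ε hε
  obtain ⟨N0, h0⟩ := cg4w hb hT hε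
  obtain ⟨M0, hM0⟩ := eventually_atTop.1 h0
  refine ⟨N0, M0, fun M hM X hX s N hN hNL => ?_⟩
  obtain ⟨ι, t, x, rfl, hP⟩ := hF M X hX
  push_cast at hNL
  have h2 : (0 : ℝ) ≤ s := Nat.cast_nonneg s
  have h3 : (0 : ℝ) ≤ N := Nat.cast_nonneg N
  obtain ⟨U, hU, hU1, hU2⟩ := hM0 M hM _ hP s N hN (by linarith) (by linarith)
  exact most_of hU hU1 (fun y hy w => hU2 y hy w)

/-- **The complexity law** for the digits of almost all members of the three families. -/
theorem result :
    (∀ (d : ℕ) (ω : Fin d → ℝ) (j : Fin d), IsAlgebraic ℚ (ω j) → Irrational (ω j) →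
      ∀ A : ℝ, 0 < A → ∀ b : ℕ, 2 ≤ b → Complexity b (fun M => A * log M) (Combinations ω)) ∧
    (∀ c ε W : ℝ, 0 < c → (∀ m : ℕ, c ≠ m) → 0 < ε → ∀ A : ℝ, 0 < A → ∀ b : ℕ, 2 ≤ b →
      Complexity b (fun M => A * log M) (Powers c ε W)) ∧
    (∀ d : ℕ, 2 ≤ d → ∃ δ : ℝ, 0 < δ ∧ ∀ b : ℕ, 2 ≤ b →
      Complexity b (fun M => (log M) ^ (1 + δ)) (Roots d)) := by
  refine ⟨?_, ?_, ?_⟩
  · intro d ω j halg hirr A hA b hb
    refine law_of hb (Pool.Agent.N639.FG.tg_SM ω j halg hirr hA hb) ?_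
    rintro M X ⟨y, rfl⟩
    exact ⟨_, _, _, rfl, ⟨y, rfl⟩⟩
  · intro c ε W hc0 hc hε A hA b hb
    refine law_of hb (Pool.Agent.N639.FG.tg_SR hc0 hc hε W hA hb) ?_
    rintro M X ⟨N, ω, y, h1, h2, h3, h4, rfl⟩
    exact ⟨_, _, _, rfl, ⟨N, ω, y, h1, h2, h3, h4, rfl⟩⟩
  · intro d hd
    obtain ⟨δ, hδ, h⟩ := Pool.Agent.N639.FG.tg_SD d hd
    refine ⟨δ, hδ, fun b hb => law_of hb (h b hb) ?_⟩
    rintro M X ⟨f, c, h1, h2, h3, h4, h5, rfl⟩
    exact ⟨_, _, _, rfl, ⟨f, c, h1, h2, h3, h4, h5, rfl⟩⟩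

end Pool.Agent.Results.MP_175f55_nt.ComplexityLaw
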