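import Pool.Agent.N586.RT.Fin2

/-!
# The central limit theorem for the digits of the roots `m ^ (1 / d)`

Let `d ≥ 2`. There is `δ > 0` such that the number of occurrences of a word (and the sum of any
function of the words of `w` consecutive digits with positive variance) in a window of length
`N → ∞` within the first `(log M) ^ (1 + δ)` digits of `m ^ (1 / d)`, for a random integer `m` in
`(M, 2 M]`, satisfies the central limit theorem, with the mean and the variance of the case of random
digits. The same holds for all elements `f(m ^ (1 / d)) / c` of the field generated by `m ^ (1 / d)`,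
where `f` is an integral polynomial with `1 ≤ deg f < d`, and `c` and the coefficients of `f` are at
most `exp ((log M) ^ (4 / 5))`. The number of digits is larger than any multiple of the logarithm of
the height.

Proof. The exponential sums `∑ e(l f(m ^ (1 / d)) / c)` over `M < m ≤ 2 M` are at most
`M exp (-(log M) ^ (9 / 10))` for all integers `0 < |l| ≤ exp ((log M) ^ (1 + δ))`: for `l` up to a
power of `M` by van der Corput's test, and for larger `l` by Vinogradov's method, with the mean value
theorem with constants `exp (C k ^ C)` of the library (`Pool.Agent.Y957.VK`). So all moments of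
the sums are nearly the moments for a random real number.
-/

set_option autoImplicit false

namespace Pool.Agent.Results.MP_175f55_nt.DigitsOfRandomRoots

open Polynomial Filter Topology

/-- the word of the `k` digits in base `b` of `y` which follow the first `n` digits after the point,
read as an integer between `0` and `b ^ k - 1` -/
noncomputable def word (b k n : ℕ) (y : ℝ) : ℕ :=
  ⌊(b : ℝ) ^ k * Int.fract ((b : ℝ) ^ n * y)⌋₊

/-- `1 ≤ deg f < d`, and `c ≥ 1` and the absolute values of the coefficients of the integral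
polynomial `f` are at most `exp ((log M) ^ (4 / 5))` -/
def Small (d M : ℕ) (f : ℤ[X]) (c : ℕ) : Prop :=
  1 ≤ f.natDegree ∧ f.natDegree < d ∧
    (∀ i, |(f.coeff i : ℝ)| ≤ Real.exp ((Real.log M) ^ (4 / 5 : ℝ))) ∧ 1 ≤ c ∧
    (c : ℝ) ≤ Real.exp ((Real.log M) ^ (4 / 5 : ℝ))

/-- the mean of `F` over the words of length `w` -/
noncomputable def mean (b w : ℕ) (F : ℕ → ℝ) : ℝ := (∑ c ∈ Finset.range (b ^ w), F c) / (b : ℝ) ^ w

/-- the covariance of the values of `F` at two words of length `w` at the distance `h`, in a random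
word of length `w + h` -/
noncomputable def cov (b w : ℕ) (F : ℕ → ℝ) (h : ℕ) : ℝ :=
  (∑ c ∈ Finset.range (b ^ (w + h)), (F (c / b ^ h) - mean b w F) * (F (c % b ^ w) - mean b w F)) /
    (b : ℝ) ^ (w + h)

/-- the variance of `F` per digit -/
noncomputable def vari (b w : ℕ) (F : ℕ → ℝ) : ℝ :=
  cov b w F 0 + 2 * ∑ h ∈ Finset.Ico 1 w, cov b w F h

/-- Let `d ≥ 2`. There is `δ > 0` such that for every function `F` of the words of length `w` in
base `b` with positive variance, for all choices of `f_M`, `c_M` with `Small d M f_M c_M`, and of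
windows of lengths `N_M → ∞` within the first `(log M) ^ (1 + δ)` digits, the sum of `F` over the
words of `f_M(m ^ (1 / d)) / c_M` in the window, `m` random in `(M, 2 M]`, is asymptotically Gaussian,
with the mean and the variance of the case of random digits. -/
theorem result (d : ℕ) (hd : 2 ≤ d) : ∃ δ : ℝ, 0 < δ ∧
    ∀ (b w : ℕ) (F : ℕ → ℝ), 2 ≤ b → 1 ≤ w → 0 < vari b w F →
      ∀ (f : ℕ → ℤ[X]) (c s N : ℕ → ℕ), (∀ᶠ M : ℕ in atTop, Small d M (f M) (c M)) →
      Tendsto N atTop atTop →
      (∀ᶠ M : ℕ in atTop, (s M : ℝ) + N M ≤ (Real.log M) ^ (1 + δ)) → ∀ a : ℝ,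
      Tendsto (fun M : ℕ => (({m : ℕ | M < m ∧ m ≤ 2 * M ∧
        ∑ i ∈ Finset.range (N M),
            F (word b w (s M + i) (aeval ((m : ℝ) ^ (1 / (d : ℝ))) (f M) / (c M : ℝ))) -
          N M * mean b w F ≤ a * √(vari b w F * N M)}.ncard : ℕ) : ℝ) / M) atTop
        (𝓝 ((ProbabilityTheory.gaussianReal 0 1).real (Set.Iic a))) := by
  classical
  obtain ⟨δ, hδ, _, h2⟩ := Pool.Agent.N586.RT.both d hd
  refine ⟨δ, hδ, ?_⟩
  intro b w F hb hw hσ f c s N hok hN hsN a
  have h3 := h2 b w F hb hw hσ f c s N hok hN hsN a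
  refine h3.congr fun M => ?_
  congr 1
  have h5 : {m : ℕ | M < m ∧ m ≤ 2 * M ∧ ∑ i ∈ Finset.range (N M),
        F (word b w (s M + i) (aeval ((m : ℝ) ^ (1 / (d : ℝ))) (f M) / (c M : ℝ))) -
        N M * mean b w F ≤ a * √(vari b w F * N M)} =
      (((Finset.Ioc M (2 * M)).filter (fun m : ℕ => ∑ i ∈ Finset.range (N M),
        F (Pool.Agent.Y933.KD.wd b w (s M + i) (Pool.Agent.N586.RT.el d (f M) (c M) m)) -
        N M * Pool.Agent.Y933.KD.mn b w F ≤
        a * √((Pool.Agent.Y933.KD.cv b w F 0 +
          2 * ∑ h ∈ Finset.Ico 1 w, Pool.Agent.Y933.KD.cv b w F h) * N M)) : Finset ℕ) :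
            Set ℕ) := by
    ext m
    rw [Finset.coe_filter]
    simp only [Set.mem_ofPred_eq, Finset.mem_Ioc, and_assoc]
    rfl
  rw [h5, Set.ncard_coe_finset]

end Pool.Agent.Results.MP_175f55_nt.DigitsOfRandomRoots
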