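import Pool.Agent.N639.FG.Fin1

/-!
# The longest repeated word in the digits of almost all roots and multiples

For almost all numbers of three families (integral combinations of real numbers one of which is
algebraic and irrational; `ω m ^ c + y` for `m` in a short interval, for instance `√m`; elements
`f(m ^ (1 / d)) / c` of the fields generated by `m ^ (1 / d)`) the longest word which is repeated in the
first `N` places of a window of digits up to the place `A log M` (in the third family up to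
`(log M) ^ (1 + δ)`) has `(2 + o(1)) log_b N` digits, for all large `N` at the same time. This is the
law for random digits.

Proof. All tests with a bounded number of digits have small errors (exponential sums: starting files
of helper933, and files of helper586 for the third family). The law follows from the first moment of the
number of repetitions, and from a fourth moment for the pairs of places in different halves.
Authors: helper639, with parts by helper346 and helper407.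
-/

set_option autoImplicit false

namespace Pool.Agent.Results.MP_175f55_nt.LongestRepeatedWord

open Finset Real Polynomial

/-- the word of the `w` digits in base `b` of `y` which follow the first `n` digits after the point,
read as an integer between `0` and `b ^ w - 1` -/
noncomputable def word (b w n : ℕ) (y : ℝ) : ℕ := ⌊(b : ℝ) ^ w * Int.fract ((b : ℝ) ^ n * y)⌋₊

/-- some word of length `w` stands at two different places of the window `s ≤ n < s + N` -/
def Repeated (b w s N : ℕ) (y : ℝ) : Prop :=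
  ∃ i j : ℕ, s ≤ i ∧ i < j ∧ j < s + N ∧ word b w i y = word b w j y

open Classical in
/-- all members of the finite family `X` but at most `ε |X|` have the property `Q` -/
def Most (ε : ℝ) (X : Multiset ℝ) (Q : ℝ → Prop) : Prop :=
  ((X.filter fun y => ¬ Q y).card : ℝ) ≤ ε * X.card

/-- for almost all members of the families in `F M`, the longest repeated word of the first `N` places
of a window has `(2 + o(1)) log_b N` digits, for all `N ≥ N0` at the same time -/
def LongestRepeated (b : ℕ) (L : ℕ → ℝ) (F : ℕ → Set (Multiset ℝ)) : Prop :=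
  ∀ ε : ℝ, 0 < ε → ∃ N0 M0 : ℕ, ∀ M : ℕ, M0 ≤ M → ∀ X ∈ F M, ∀ s : ℕ, (s : ℝ) ≤ L M →
    Most ε X fun y => ∀ N : ℕ, N0 ≤ N → ((s + N : ℕ) : ℝ) ≤ L M →
      (∀ w : ℕ, (2 + ε) * log N ≤ w * log b → ¬ Repeated b w s N y) ∧
      (∀ w : ℕ, w * log b ≤ (2 - ε) * log N → Repeated b w s N y)

/-- the numbers `∑ m_j ω_j + y`, where `1 ≤ m_j ≤ M` -/
def Combinations {d : ℕ} (ω : Fin d → ℝ) (M : ℕ) : Set (Multiset ℝ) :=
  {X | ∃ y : ℝ, X = (Fintype.piFinset fun _ : Fin d => Icc 1 M).val.map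
    (fun m : Fin d → ℕ => ∑ j, (m j : ℝ) * ω j + y)}

/-- the numbers `ω m ^ c + y`, where `N < m ≤ N + M`, and `N ^ (1 / 2 + ε) ≤ M`,
`N ^ (1 - c + ε) ≤ M`, `1 ≤ |ω| ≤ M ^ W` -/
def Powers (c ε W : ℝ) (M : ℕ) : Set (Multiset ℝ) :=
  {X | ∃ (N : ℕ) (ω y : ℝ), (N : ℝ) ^ (1 / 2 + ε) ≤ M ∧ (N : ℝ) ^ (1 - c + ε) ≤ M ∧
    1 ≤ |ω| ∧ |ω| ≤ (M : ℝ) ^ W ∧
    X = (Ioc N (N + M)).val.map (fun m : ℕ => ω * (m : ℝ) ^ c + y)}

/-- the numbers `f(m ^ (1 / d)) / c`, where `M < m ≤ 2 M`; here `f` is an integral polynomial with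
`1 ≤ deg f < d`, and `c` and the absolute values of the coefficients of `f` are at most
`exp ((log M) ^ (4 / 5))` -/
def Roots (d M : ℕ) : Set (Multiset ℝ) :=
  {X | ∃ (f : ℤ[X]) (c : ℕ), 1 ≤ f.natDegree ∧ f.natDegree < d ∧
    (∀ i, |(f.coeff i : ℝ)| ≤ Real.exp ((log M) ^ (4 / 5 : ℝ))) ∧ 1 ≤ c ∧
    (c : ℝ) ≤ Real.exp ((log M) ^ (4 / 5 : ℝ)) ∧
    X = (Ioc M (2 * M)).val.map (fun m : ℕ => aeval ((m : ℝ) ^ (1 / (d : ℝ))) f / (c : ℝ))}

open Pool.Agent.N639.FG Pool.Agent.Y933.KD MeasureTheory Filter Topology in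
lemma law_of {b : ℕ} (hb : 2 ≤ b) {L : ℕ → ℝ} {S : ℕ → Set (Measure ℝ)}
    {F : ℕ → Set (Multiset ℝ)} (hT : TG b (fun M => 2 * L M) S)
    (hF : ∀ M : ℕ, ∀ X ∈ F M, ∃ (ι : Type) (s : Finset ι) (x : ι → ℝ), X = s.val.map x ∧
      unif s x ∈ S M) : LongestRepeated b L F := by
  intro ε hε
  obtain ⟨N0, h0⟩ := cg2w hb hT hε
  obtain ⟨M0, hM0⟩ := eventually_atTop.1 h0
  refine ⟨N0, M0, fun M hM X hX s hs => ?_⟩
  obtain ⟨ι, t, x, rfl, hP⟩ := hF M X hX
  obtain ⟨U, hU, hU1, hU2⟩ := hM0 M hM _ hP s hs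
  refine most_of hU hU1 (fun y hy N hN hNL => ?_)
  have h3 : (N : ℝ) ≤ L M := by
    push_cast at hNL
    have : (0 : ℝ) ≤ s := Nat.cast_nonneg s
    linarith
  have h1 := hU2 y hy N hN h3
  have h4 : ∀ w : ℕ, Repeated b w s N y ↔ Pool.Agent.N639.FS.Rep b w N (Tb b s y) := by
    intro w
    unfold Repeated Pool.Agent.N639.FS.Rep
    constructor
    · rintro ⟨i, j, h5, h6, h7, h8⟩
      refine ⟨i - s, by omega, j - s, by omega, by omega, ?_⟩
      rw [← wd_add, ← wd_add]
      have e1 : s + (i - s) = i := by omega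
      have e2 : s + (j - s) = j := by omega
      rw [e1, e2]
      exact h8
    · rintro ⟨i, h5, j, h6, h7, h8⟩
      refine ⟨s + i, s + j, by omega, by omega, by omega, ?_⟩
      rw [← wd_add, ← wd_add] at h8
      exact h8
  exact ⟨fun w hw => by rw [h4]; exact h1.1 w hw, fun w hw => by rw [h4]; exact h1.2 w hw⟩

/-- **The longest repeated word** in the digits of almost all members of the three families. -/
theorem result :
    (∀ (d : ℕ) (ω : Fin d → ℝ) (j : Fin d), IsAlgebraic ℚ (ω j) → Irrational (ω j) →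
      ∀ A : ℝ, 0 < A → ∀ b : ℕ, 2 ≤ b → LongestRepeated b (fun M => A * log M) (Combinations ω)) ∧
    (∀ c ε W : ℝ, 0 < c → (∀ m : ℕ, c ≠ m) → 0 < ε → ∀ A : ℝ, 0 < A → ∀ b : ℕ, 2 ≤ b →
      LongestRepeated b (fun M => A * log M) (Powers c ε W)) ∧
    (∀ d : ℕ, 2 ≤ d → ∃ δ : ℝ, 0 < δ ∧ ∀ b : ℕ, 2 ≤ b →
      LongestRepeated b (fun M => (log M) ^ (1 + δ)) (Roots d)) := by
  refine ⟨?_, ?_, ?_⟩
  · intro d ω j halg hirr A hA b hb
    refine law_of hb (Pool.Agent.N639.FG.tg_SM ω j halg hirr hA hb) ?_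
    rintro M X ⟨y, rfl⟩
    exact ⟨_, _, _, rfl, ⟨y, rfl⟩⟩
  · intro c ε W hc0 hc hε A hA b hb
    refine law_of hb (Pool.Agent.N639.FG.tg_SR hc0 hc hε W hA hb) ?_
    rintro M X ⟨N, ω, y, h1, h2, h3, h4, rfl⟩
    exact ⟨_, _, _, rfl, ⟨N, ω, y, h1, h2, h3, h4, rfl⟩⟩
  · intro d hd
    obtain ⟨δ, hδ, h⟩ := Pool.Agent.N639.FG.tg_SD d hd
    refine ⟨δ, hδ, fun b hb => law_of hb (h b hb) ?_⟩
    rintro M X ⟨f, c, h1, h2, h3, h4, h5, rfl⟩
    exact ⟨_, _, _, rfl, ⟨f, c, h1, h2, h3, h4, h5, rfl⟩⟩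

end Pool.Agent.Results.MP_175f55_nt.LongestRepeatedWord
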